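import Pool.Agent.helper98.SP.SpecGA
import Pool.Agent.helper66.DP.GO

/-!
# Project sp, piece GA: boundary of a connected set in a box (GD0)
-/

namespace TP

open DP MeasureTheory

theorem GD0_arc_left {x : V} {n : ℕ} {b b' : V} (hb : b ∈ bd x n) (hb' : b' ∈ bd x n) :
    onArc x n b b' b := by
  refine ⟨hb, hb', hb, ?_⟩
  split_ifs with h
  · exact ⟨le_rfl, h⟩
  · exact Or.inl le_rfl

theorem GD0_arc_right {x : V} {n : ℕ} {b b' : V} (hb : b ∈ bd x n) (hb' : b' ∈ bd x n) :
    onArc x n b b' b' := by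
  refine ⟨hb, hb', hb', ?_⟩
  split_ifs with h
  · exact ⟨h, le_rfl⟩
  · exact Or.inr le_rfl

theorem GD0 (hPO : DP.PO_stmt) (hAI : DP.AI_stmt) (hPR : DP.PR_stmt) : GD0_stmt := by
  classical
  intro x n C a a' b b' hn hC haa hab hba harc
  set N : Set V := nbd (box x n) C with hN
  have hb1 : b ∈ bd x n := hab.2.1
  have hb2 : b' ∈ bd x n := hba.1
  have hbC := harc b (GD0_arc_left hb1 hb2)
  have hb'C := harc b' (GD0_arc_right hb1 hb2)
  have haC : a ∈ C := haa.1
  have ha'C : a' ∈ C := haa.mem_right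
  have adj1 : Adj a b := hPO.2.2.2 x n a b hn hab
  have adj2 : Adj b' a' := hPO.2.2.2 x n b' a' hn hba
  have hbN : b ∈ N := ⟨le_of_eq hb1, hbC, a, haC, adj1⟩
  by_contra hcon
  let M : Set V := {w | Con N b w}
  have hbM : b ∈ M := DP.Con.refl hbN
  have hMN : M ⊆ N := fun w hw => DP.Con.mem_right hw
  have hb'M : b' ∉ M := hcon
  have hCM : ∀ w, w ∈ C → w ∈ M → False := fun w h1 h2 => (hMN h2).2.1 h1
  have hcl : Closed (rect (x.1 - n) (x.1 + n) (x.2 - n) (x.2 + n)) (GO_f C M) := by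
    refine GO_closed hCM fun u v w hw huw hvw huv hu hv _ _ => ?_
    by_cases hwC : w ∈ C
    · exact Or.inl hwC
    · right
      have h3 : w ∈ N := by
        refine ⟨?_, hwC, u, hu, huw⟩
        simp only [rect, Set.mem_ofPred_eq] at hw
        have : sd x w ≤ n := by
          unfold sd
          omega
        exact this
      exact DP.Con.step hv hvw h3
  obtain ⟨φ, hφ⟩ := hPR _ _ _ _ _ hcl
  have hbox : box x n ⊆ rect (x.1 - n) (x.1 + n) (x.2 - n) (x.2 + n) := by
    intro w hw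
    simp only [box, sd, Set.mem_ofPred_eq] at hw
    simp only [rect, Set.mem_ofPred_eq]
    omega
  have hbd : ∀ w ∈ bd x n, w ∈ rect (x.1 - n) (x.1 + n) (x.2 - n) (x.2 + n) :=
    fun w hw => hbox (le_of_eq hw)
  have h0 : ∀ u v, u ∉ C → v ∉ C → GO_f C M u v = 0 := by
    intro u v hu hv
    simp [GO_f, hu, hv]
  have h1 : ∀ u v, u ∉ M → v ∉ M → GO_f C M u v = 0 := by
    intro u v hu hv
    simp [GO_f, hu, hv]
  -- the values of the potential
  have e1 : φ a = φ a' := GO_const hφ (hC.trans hbox)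
    (fun s hs t ht => h1 s t (fun h => hCM s hs h) (fun h => hCM t ht h)) haa
  have e2 : φ a + φ b = 1 := by
    rw [← hφ a (hbd a hab.1) b (hbd b hb1) adj1]
    simp [GO_f, haC, hbM]
  have e3 : φ b' + φ a' = 0 := by
    rw [← hφ b' (hbd b' hb2) a' (hbd a' hba.2.1) adj2]
    simp [GO_f, hb'C, hb'M]
  have e4 : φ b' = φ b := by
    refine hAI x n b b' (fun z => φ z = φ b) hn hb1 hb2 rfl ?_
    intro s t hst _ _ hs ht hP
    have h2 := hφ s (hbd s hst.1) t (hbd t hst.2.1) (hPO.2.2.2 x n s t hn hst)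
    rw [h0 s t (harc s hs) (harc t ht)] at h2
    have h3 : φ s = -φ t := eq_neg_of_add_eq_zero_left h2.symm
    rw [ZMod.neg_eq_self_mod_two] at h3
    rw [← h3, hP]
  rw [e4, ← e1, add_comm, e2] at e3
  exact absurd e3 (by decide)

end TP
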