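import Pool.Agent.helper98.SP.SpecGA
import Pool.Agent.helper96.DP.SpecF

/-!
# Project sp, piece GA: the colour flip preserves the number of crossing clusters (GD1)
-/

namespace TP

open DP MeasureTheory

theorem GD1_conn {c : V → Bool} {R : Set V} {u v : V} :
    Conn (fl c) true R u v ↔ Conn c false R u v := by
  unfold Conn
  have : {w | w ∈ R ∧ fl c w = true} = {w | w ∈ R ∧ c w = false} := by
    ext w
    simp [fl]
  rw [this]

theorem GD1_fl (c : V → Bool) : fl (fl c) = c := by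
  funext v
  simp [fl]

/-- a black crossing point and a white crossing point: an edge which leaves the black cluster in
counterclockwise direction -/
theorem GD1_edge (hQI : DP.QI_stmt) (hPO : DP.PO_stmt) (c : V → Bool) (x : V) (m n : ℕ)
    (hx : Even (x.1 + x.2)) (hm : 1 ≤ m) (hmn : m < n) (q : V) (hq : inX c x m n q)
    (hcq : c q = false) : ∀ (N : ℕ) (u : V), inX c x m n u → c u = true →
      (if pos x m u ≤ pos x m q then pos x m q - pos x m u
        else pos x m q - pos x m u + 8 * m) ≤ N →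
      ∃ a b : V, nxt x m a b ∧ Conn c true (ann x m n) u a ∧ c b = false ∧ inX c x m n b := by
  intro N
  induction N with
  | zero =>
    intro u hu hcu hN
    exfalso
    have h1 := hPO.1 x m u hm hu.1
    have h2 := hPO.1 x m q hm hq.1
    have h3 : pos x m u = pos x m q := by
      split_ifs at hN <;> omega
    have h4 := hPO.2.1 x m u q hm hu.1 hq.1 h3
    rw [h4, hcq] at hcu
    exact absurd hcu (by decide)
  | succ N ih =>
    intro u hu hcu hN
    obtain ⟨⟨a, b, hab, ha, hb, hcb, hua, hbX⟩, _⟩ := hQI c x m n hx hm hmn u q hu hq (by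
      rw [hcu, hcq]; decide)
    rw [hcu] at hua
    rw [hcq] at hcb
    rcases hab with hab | ⟨hba, hbq⟩
    · exact ⟨a, b, hab, hua, hcb, hbX⟩
    · have hca : c a = true := Conn.colour_right hua
      have haX : inX c x m n a := by
        obtain ⟨u', hu', hc'⟩ := hu.2
        rw [hcu] at hc'
        refine ⟨ha.2.2.1, u', hu', ?_⟩
        rw [hca]
        exact hua.symm.trans hc'
      have hbu : b ≠ u := by
        rintro rfl
        rw [hcb] at hcu
        exact absurd hcu (by decide)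
      have haq : a ≠ q := by
        rintro rfl
        rw [hcq] at hca
        exact absurd hca (by decide)
      have huq : u ≠ q := by
        rintro rfl
        rw [hcq] at hcu
        exact absurd hcu (by decide)
      have p1 := hPO.1 x m u hm hu.1
      have p2 := hPO.1 x m q hm hq.1
      have p3 := hPO.1 x m a hm ha.2.2.1
      have p4 := hPO.1 x m b hm hb.2.2.1
      have n1 : pos x m b ≠ pos x m u := fun h => hbu (hPO.2.1 x m b u hm hb.2.2.1 hu.1 h)
      have n2 : pos x m b ≠ pos x m q := fun h => hbq (hPO.2.1 x m b q hm hb.2.2.1 hq.1 h)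
      have n3 : pos x m a ≠ pos x m q := fun h => haq (hPO.2.1 x m a q hm ha.2.2.1 hq.1 h)
      have n4 : pos x m u ≠ pos x m q := fun h => huq (hPO.2.1 x m u q hm hu.1 hq.1 h)
      have h1 := ha.2.2.2
      have h2 := hb.2.2.2
      have h3 := hba.2.2
      obtain ⟨a', b', h4, h5, h6, h7⟩ := ih a haX hca (by
        split_ifs at h1 h2 hN ⊢ <;> omega)
      exact ⟨a', b', h4, hua.trans h5, h6, h7⟩

theorem GD1_alt (hPO : DP.PO_stmt) {x : V} {m : ℕ} (hm : 1 ≤ m) {a b a' b' : V}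
    (h1 : nxt x m a b) (h2 : nxt x m a' b') (haa : a ≠ a') (hab' : a ≠ b') (ha'b : a' ≠ b)
    (hab : a ≠ b) (hab2 : a' ≠ b') : alt x m b a' b' a := by
  have p1 := hPO.1 x m a hm h1.1
  have p2 := hPO.1 x m b hm h1.2.1
  have p3 := hPO.1 x m a' hm h2.1
  have p4 := hPO.1 x m b' hm h2.2.1
  have e1 := h1.2.2
  have e2 := h2.2.2
  have n1 : pos x m a ≠ pos x m a' := fun h => haa (hPO.2.1 x m a a' hm h1.1 h2.1 h)
  have hbb : b ≠ b' := by
    intro h
    apply n1
    rw [h] at e1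
    omega
  refine ⟨⟨h1.2.1, h2.1, h2.2.1, h1.1⟩, ?_, Or.inl ⟨?_, ?_⟩⟩
  · simp only [List.nodup_cons, List.mem_cons, List.not_mem_nil, or_false, not_or,
      List.nodup_nil, and_true, not_false_eq_true]
    exact ⟨⟨fun h => ha'b h.symm, hbb, fun h => hab h.symm⟩, ⟨hab2, fun h => haa h.symm⟩,
      fun h => hab' h.symm⟩
  · refine ⟨h1.2.1, h2.2.1, h2.1, ?_⟩
    split_ifs <;> omega
  · refine ⟨h2.2.1, h1.2.1, h1.1, ?_⟩
    split_ifs <;> omega

theorem GD1_three (hFI : DP.FI_stmt) (hIF : DP.IF_stmt) (hQI : DP.QI_stmt) (hPO : DP.PO_stmt)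
    (c : V → Bool) (x : V) (m n : ℕ) (hx : Even (x.1 + x.2)) (hm : 1 ≤ m) (hmn : m < n)
    (h : Three c x m n) : Three (fl c) x m n := by
  obtain ⟨u, hu, v, hv, w, hw, hu', hv', hw', huv, hvw, huw⟩ := h
  obtain ⟨_, q, _, _, _, _, hcq, _, _, _, hq, _, _⟩ := hFI c x m n hx hm hmn
    ⟨u, hu, v, hv, hu', hv', huv⟩
  have key : ∀ z ∈ bd x m, (∃ z' ∈ bd x n, Conn c true (ann x m n) z z') →
      ∃ a b : V, nxt x m a b ∧ Conn c true (ann x m n) z a ∧ c b = false ∧ inX c x m n b := by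
    intro z hz hz'
    obtain ⟨z', hz1, hz2⟩ := hz'
    have hcz : c z = true := Conn.colour_left hz2
    have hX : inX c x m n z := ⟨hz, z', hz1, by rw [hcz]; exact hz2⟩
    obtain ⟨N, hN⟩ := Int.eq_ofNat_of_zero_le (show (0 : ℤ) ≤
      (if pos x m z ≤ pos x m q then pos x m q - pos x m z
        else pos x m q - pos x m z + 8 * m) by
      have h1 := hPO.1 x m z hm hz
      have h2 := hPO.1 x m q hm hq.1
      split_ifs <;> omega)
    exact GD1_edge hQI hPO c x m n hx hm hmn q hq hcq N z hX hcz hN.le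
  obtain ⟨a₁, b₁, n₁, k₁, c₁, x₁⟩ := key u hu hu'
  obtain ⟨a₂, b₂, n₂, k₂, c₂, x₂⟩ := key v hv hv'
  obtain ⟨a₃, b₃, n₃, k₃, c₃, x₃⟩ := key w hw hw'
  -- crossing of the points `a`
  have hX : ∀ z a : V, a ∈ bd x m → (∃ z' ∈ bd x n, Conn c true (ann x m n) z z') →
      Conn c true (ann x m n) z a → inX c x m n a := by
    rintro z a ha ⟨z', hz1, hz2⟩ hza
    refine ⟨ha, z', hz1, ?_⟩
    rw [Conn.colour_right hza]
    exact hza.symm.trans hz2
  have hw1 : ∀ b : V, c b = false → inX c x m n b →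
      ∃ b' ∈ bd x n, Conn (fl c) true (ann x m n) b b' := by
    rintro b hb ⟨_, b', hb1, hb2⟩
    rw [hb] at hb2
    exact ⟨b', hb1, GD1_conn.2 hb2⟩
  have hdis : ∀ z z' a b a' b' : V, ¬ Conn c true (ann x m n) z z' →
      (∃ t ∈ bd x n, Conn c true (ann x m n) z t) → (∃ t ∈ bd x n, Conn c true (ann x m n) z' t) →
      nxt x m a b → nxt x m a' b' → Conn c true (ann x m n) z a → Conn c true (ann x m n) z' a' →
      c b = false → c b' = false → inX c x m n b → inX c x m n b' →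
      ¬ Conn (fl c) true (ann x m n) b b' := by
    intro z z' a b a' b' hzz hz hz' hn1 hn2 hza hza' hb hb' hbX hbX' hcon
    have ca : c a = true := Conn.colour_right hza
    have ca' : c a' = true := Conn.colour_right hza'
    have haa : a ≠ a' := by
      rintro rfl
      exact hzz (hza.trans hza'.symm)
    have hne : ∀ s t : V, c s = true → c t = false → s ≠ t := by
      rintro s t hs ht rfl
      rw [hs] at ht
      exact absurd ht (by decide)
    have halt := GD1_alt hPO hm hn1 hn2 haa (hne _ _ ca hb') (hne _ _ ca' hb) (hne _ _ ca hb)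
      (hne _ _ ca' hb')
    exact hIF c false x m n hx hm hmn b a' b' a halt hb ca' hb' ca hbX
      (hX z' a' hn2.1 hz' hza') hbX' (hX z a hn1.1 hz hza) (GD1_conn.1 hcon)
  exact ⟨b₁, n₁.2.1, b₂, n₂.2.1, b₃, n₃.2.1, hw1 _ c₁ x₁, hw1 _ c₂ x₂, hw1 _ c₃ x₃,
    hdis u v a₁ b₁ a₂ b₂ huv hu' hv' n₁ n₂ k₁ k₂ c₁ c₂ x₁ x₂,
    hdis v w a₂ b₂ a₃ b₃ hvw hv' hw' n₂ n₃ k₂ k₃ c₂ c₃ x₂ x₃,
    hdis u w a₁ b₁ a₃ b₃ huw hu' hw' n₁ n₃ k₁ k₃ c₁ c₃ x₁ x₃⟩

theorem GD1 (hTC : DP.TC_stmt) (hFI : DP.FI_stmt) (hIF : DP.IF_stmt) (hQI : DP.QI_stmt)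
    (hPO : DP.PO_stmt) : GD1_stmt := by
  intro c x m n hx hm hmn
  have h1 : four (fl c) x m n ↔ four c x m n := by
    refine Iff.trans ?_ (hTC c x m n hx hm hmn)
    unfold four twoCl
    simp only [GD1_conn]
  have h2 : Three (fl c) x m n ↔ Three c x m n := by
    refine ⟨fun h => ?_, GD1_three hFI hIF hQI hPO c x m n hx hm hmn⟩
    have := GD1_three hFI hIF hQI hPO (fl c) x m n hx hm hmn h
    rwa [GD1_fl] at this
  refine ⟨h1, h2, ?_⟩
  unfold Gate
  rw [h1, h2]

end TP
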