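import Pool.Agent.helper31.SP.SpecTL

/-!
# Project sp, part TL: lower tail of the number of points in the bulk (TL10)
-/

namespace TP

open DP MeasureTheory

/-- the four arm probability decreases with the outer radius -/
theorem TL10_a4 (hAM : DP.AM_stmt) (m p i : ℕ) (hmp : m ≤ p) (hpi : p ≤ i) :
    a4 m i ≤ a4 m p := by
  have : IsProbabilityMeasure P1 := by unfold P1; infer_instance
  unfold a4 Pr
  refine measureReal_mono ?_ (measure_ne_top _ _)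
  intro b hb
  have h := hAM (col b) 4 0 (2 ^ m) (2 ^ m) (2 ^ p) (2 ^ i) (Or.inr rfl) le_rfl
    (Nat.pow_le_pow_right (by norm_num) hmp) (Nat.pow_le_pow_right (by norm_num) hpi)
  simp only [ar, if_true] at h
  exact h hb

theorem TL10_sub (i k : ℕ) : BF i k ⊆ VV i := by
  classical
  unfold BF
  exact Finset.filter_subset _ _

theorem TL10 (h0 : TL0_stmt) (h1 : TL1_stmt) (h4 : TL4_stmt) (h7 : TL7_stmt) (h8 : TL8_stmt)
    (h9 : TL9_stmt) (hAM : DP.AM_stmt) : TL10_stmt := by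
  obtain ⟨k₀, hk₀⟩ := h7
  refine ⟨max k₀ 2, fun m₀ hm₀ k η hη => ?_⟩
  have hm2 : 2 ≤ m₀ := (le_max_right _ _).trans hm₀
  obtain ⟨c₁, c₂, C, i₀, hc₁, hc₂, hC, hi₀, hA, hB⟩ := hk₀ m₀ ((le_max_left _ _).trans hm₀)
  obtain ⟨K, hK, h8'⟩ := h8 m₀ k i₀ c₁ c₂ C hm2 hc₁ hc₂ hC hi₀ hA hB
  obtain ⟨K', hK', h9'⟩ := h9 c₂ K hc₂ hK
  have hr : (2 : ℝ) ^ (-c₂) < 1 := Real.rpow_lt_one_of_one_lt_of_neg (by norm_num) (by linarith)
  obtain ⟨n, hn⟩ := exists_pow_lt_of_lt_one (show 0 < η / (16 * K') by positivity) hr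
  obtain ⟨J, hJ⟩ : ∃ J : ℕ, J = n + k + 3 := ⟨_, rfl⟩
  have hJη : 16 * (K' * (2 : ℝ) ^ (-(c₂ * (J : ℝ)))) ≤ η := by
    have e1 : ((2 : ℝ) ^ (-c₂)) ^ n = (2 : ℝ) ^ (-(c₂ * (n : ℝ))) := by
      rw [← Real.rpow_natCast, ← Real.rpow_mul (by norm_num)]
      congr 1
      ring
    have e2 : (2 : ℝ) ^ (-(c₂ * (J : ℝ))) ≤ (2 : ℝ) ^ (-(c₂ * (n : ℝ))) := by
      apply Real.rpow_le_rpow_of_exponent_le (by norm_num)
      have : (n : ℝ) ≤ J := by exact_mod_cast (by omega : n ≤ J)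
      nlinarith
    rw [e1, lt_div_iff₀ (by positivity)] at hn
    nlinarith
  refine ⟨1 / (4 ^ J * c₁), i₀ + J, by positivity, fun i hi => ?_⟩
  have hp : i₀ ≤ i - J := by omega
  obtain ⟨ha, hs, hs2⟩ := hA (i - J) hp
  have hD : Q (rB i k (sc c₁ m₀ (i - J))) (Fc i) (Fc i) - Q (fun _ => 1) (Fc i) (Fc i) ≤
      K' * (2 : ℝ) ^ (-(c₂ * (J : ℝ))) := by
    have h := h9' (fun p => Q (rB i k (sc c₁ m₀ p)) (Fc i) (Fc i) - Q (fun _ => 1) (Fc i) (Fc i))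
      i i₀ (i - J) (fun p hp1 hp2 => by
        have := (h8' i p hp1 (by omega)).1
        simpa using this) (h8' i i₀ le_rfl (by omega)).2 (i - J) hp le_rfl
    have e : (i : ℝ) - ((i - J : ℕ) : ℝ) = J := by
      rw [Nat.cast_sub (by omega)]
      ring
    rw [e] at h
    exact h
  have hT := h1 (VV i) (BF i k) (Fc i) (sc c₁ m₀ (i - J)) (h4.1 i)
    (TL10_sub i k) hs hs2
  have hmono : a4 m₀ i ≤ a4 m₀ (i - J) := TL10_a4 hAM m₀ (i - J) i (by omega) (Nat.sub_le _ _)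
  have hmain : PS i (fun X => X.Nonempty ∧ X ⊆ (BF i k : Set V) ∧
      (X.ncard : ℝ) ≤ 1 / (4 ^ J * c₁) * (4 ^ i * a4 m₀ i)) ≤
      PSF (Fc i) (VV i) (fun X => X.Nonempty ∧ X ⊆ (BF i k : Set V) ∧
        (X.ncard : ℝ) * sc c₁ m₀ (i - J) ≤ 1) := by
    apply (h0 (Fc i) (VV i)).2.1
    rintro T _ ⟨hT1, hT2, hT3⟩
    refine ⟨hT1, hT2, ?_⟩
    calc ((T : Set V).ncard : ℝ) * sc c₁ m₀ (i - J)
        ≤ 1 / (4 ^ J * c₁) * (4 ^ i * a4 m₀ i) * sc c₁ m₀ (i - J) :=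
          mul_le_mul_of_nonneg_right hT3 hs.le
      _ = a4 m₀ i / a4 m₀ (i - J) := by
          unfold sc
          have e : (4 : ℝ) ^ i = 4 ^ J * 4 ^ (i - J) := by
            rw [← pow_add]
            congr 1
            omega
          rw [e]
          field_simp
      _ ≤ 1 := by
          rw [div_le_one ha]
          exact hmono
  calc _ ≤ _ := hmain
    _ ≤ _ := hT
    _ ≤ 16 * (K' * (2 : ℝ) ^ (-(c₂ * (J : ℝ)))) := by
        apply mul_le_mul_of_nonneg_left _ (by norm_num)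
        exact hD
    _ ≤ η := hJη

end TP
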