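import Pool.Agent.helper31.SP.SpecTL

/-!
# Project sp, part TL: two pivotal points give four arms at three places (TL11)
-/

namespace TP

open DP MeasureTheory

theorem TL11_evp (v : V) : sd v (evp v) ≤ 1 := by
  unfold evp sd
  dsimp only
  omega

theorem TL11_congr {c c' : V → Bool} {x : V} {m n : ℕ} (h : ∀ w ∈ ann x m n, c w = c' w)
    (hf : four c x m n) : four c' x m n := by
  obtain ⟨u, hu, v, hv, ⟨u', hu', h1⟩, ⟨v', hv', h2⟩, h3⟩ := hf
  exact ⟨u, hu, v, hv, ⟨u', hu', (Conn.congr h).1 h1⟩, ⟨v', hv', (Conn.congr h).1 h2⟩,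
    fun h4 => h3 ((Conn.congr h).2 h4)⟩

theorem TL11_mono (hAM : DP.AM_stmt) {c : V → Bool} {x : V} {m m' n' n : ℕ} (h1 : m ≤ m')
    (h2 : m' ≤ n') (h3 : n' ≤ n) (hf : four c x m n) : four c x m' n' := by
  have h := hAM c 4 x m m' n' n (Or.inr rfl) h1 h2 h3
  simp only [ar, if_true] at h
  exact h hf

/-- one point -/
theorem TL11_one (hT : TL5_stmt) (hAM : DP.AM_stmt) (m₀ i k t l : ℕ) (x u v : V) (b : V → Bool)
    (hm₀ : 2 ≤ m₀) (hl : m₀ + 4 ≤ l) (hx : box x (2 ^ (i - k)) ⊆ rect 1 (2 * 2 ^ i) 0 (hh (2 ^ i)))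
    (ht : t + k + 6 ≤ i) (hlt : l ≤ t + 1) (hu : sd x u ≤ 2 ^ t) (huv : 2 ^ l ≤ sd u v)
    (hp : ∃ a, Function.update b v a ∈ Piv {u} (Fc i)) :
    four (col b) (evp u) (2 ^ m₀) (2 ^ (l - 2)) := by
  obtain ⟨a, ha⟩ := hp
  have hue := TL11_evp u
  have hl4 : 2 ^ l = 4 * 2 ^ (l - 2) := by
    rw [show (4 : ℕ) = 2 ^ 2 by norm_num, ← pow_add]
    congr 1
    omega
  have hl2 : 2 ^ (l - 2) ≤ 2 ^ t := Nat.pow_le_pow_right (by norm_num) (by omega)
  have hml : 2 ^ m₀ ≤ 2 ^ (l - 2) := Nat.pow_le_pow_right (by norm_num) (by omega)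
  have hm4 : 2 ^ 2 ≤ 2 ^ m₀ := Nat.pow_le_pow_right (by norm_num) hm₀
  have hik : 4 * 2 ^ t ≤ 2 ^ (i - k) := by
    rw [show (4 : ℕ) = 2 ^ 2 by norm_num, ← pow_add]
    exact Nat.pow_le_pow_right (by norm_num) (by omega)
  have h1t : 1 ≤ 2 ^ t := Nat.one_le_two_pow
  have hB : ({u} : Set V) ⊆ box (evp u) 1 := by
    rintro w rfl
    rw [sd_comm] at hue
    exact hue
  have hW : box (evp u) (2 ^ (l - 2)) ⊆ rect 1 (2 * 2 ^ i) 0 (hh (2 ^ i)) := by
    refine Set.Subset.trans ?_ hx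
    intro w hw
    have hw' : sd (evp u) w ≤ 2 ^ (l - 2) := hw
    have h1 := sd_triangle x u w
    have h2 := sd_triangle u (evp u) w
    have h3 : sd x w ≤ 2 ^ (i - k) := by omega
    exact h3
  have hf := hT i (Function.update b v a) {u} (evp u) 1 (2 ^ (l - 2)) hB (by omega) hW ha
  have hf2 : four (col b) (evp u) (1 + 2) (2 ^ (l - 2)) := by
    refine TL11_congr ?_ hf
    rintro w ⟨_, hw⟩
    have hne : br w ≠ v := by
      intro hbr
      have h1 := sd_br_le w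
      rw [hbr] at h1
      have h2 := sd_triangle u (evp u) w
      have h3 := sd_triangle u w v
      omega
    unfold col
    rw [Function.update_of_ne hne]
  exact TL11_mono hAM (by omega) hml le_rfl hf2

theorem TL11 (hT : TL5_stmt) (hAM : DP.AM_stmt) : TL11_stmt := by
  intro m₀ i k t l x u v b hm₀ hl hxG ht hu hv huv huv2 hp hpu hpv
  have hx : box x (2 ^ (i - k)) ⊆ rect 1 (2 * 2 ^ i) 0 (hh (2 ^ i)) := by
    classical
    unfold GB at hxG
    exact (Finset.mem_filter.1 hxG).2.2.2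
  have hu' : sd x u ≤ 2 ^ t := (Finset.mem_filter.1 hu).2
  have hv' : sd x v ≤ 2 ^ t := (Finset.mem_filter.1 hv).2
  have hlt : l ≤ t + 1 := by
    by_contra hlt
    have h1 : 2 ^ (t + 2) ≤ 2 ^ l := Nat.pow_le_pow_right (by norm_num) (by omega)
    have h2 := sd_triangle u x v
    rw [sd_comm u x] at h2
    have h3 : 2 ^ (t + 2) = 4 * 2 ^ t := by rw [pow_add]; ring
    have h1t : 1 ≤ 2 ^ t := Nat.one_le_two_pow
    omega
  refine ⟨TL11_one hT hAM m₀ i k t l x u v b hm₀ hl hx ht hlt hu' huv hpu,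
    TL11_one hT hAM m₀ i k t l x v u b hm₀ hl hx ht hlt hv' (by rw [sd_comm]; exact huv) hpv, ?_⟩
  have hue := TL11_evp u
  have h1t : 1 ≤ 2 ^ t := Nat.one_le_two_pow
  have hl1 : 2 ^ (l + 2) = 2 * 2 ^ (l + 1) := by rw [pow_succ]; ring
  have hll : 2 ^ (l + 1) = 2 * 2 ^ l := by rw [pow_succ]; ring
  have h1l : 1 ≤ 2 ^ l := Nat.one_le_two_pow
  have hli : 2 ^ (l + 2) ≤ 2 ^ (i - k - 1) := Nat.pow_le_pow_right (by norm_num) (by omega)
  have hti : 2 * 2 ^ t ≤ 2 ^ (i - k - 1) := by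
    rw [← pow_succ']
    exact Nat.pow_le_pow_right (by norm_num) (by omega)
  have hik : 2 ^ (i - k) = 2 * 2 ^ (i - k - 1) := by
    rw [← pow_succ']
    congr 1
    omega
  have hB : ({u, v} : Set V) ⊆ box (evp u) (2 ^ (l + 1)) := by
    rintro w (rfl | rfl)
    · have : sd (evp w) w ≤ 2 ^ (l + 1) := by rw [sd_comm]; omega
      exact this
    · have h1 := sd_triangle (evp u) u w
      rw [sd_comm (evp u) u] at h1
      have : sd (evp u) w ≤ 2 ^ (l + 1) := by omega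
      exact this
  have hW : box (evp u) (2 ^ (i - k - 1)) ⊆ rect 1 (2 * 2 ^ i) 0 (hh (2 ^ i)) := by
    refine Set.Subset.trans ?_ hx
    intro w hw
    have hw' : sd (evp u) w ≤ 2 ^ (i - k - 1) := hw
    have h1 := sd_triangle x u w
    have h2 := sd_triangle u (evp u) w
    have h3 : sd x w ≤ 2 ^ (i - k) := by omega
    exact h3
  have hf := hT i b {u, v} (evp u) (2 ^ (l + 1)) (2 ^ (i - k - 1)) hB (by omega) hW hp
  exact TL11_mono hAM (by omega) hli le_rfl hf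

end TP
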